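import Mathlib

/-!
# The explicit monostable wave of the Allen-Cahn equation

For every dimension `n = m + 1` the function
`u (x, t) = sigmoid (x_n / sqrt 2 + (3 / 2) t)` solves `Δ u - u_t = u ^ 3 - u`,
takes values in `(0,1)`, is increasing in `x_n` and in `t`.
-/

set_option autoImplicit false

namespace Pool.Agent.helper26.HuxleyWave

open Real

/-- The last coordinate as a continuous linear functional. -/
noncomputable def lastCoord (m : ℕ) : EuclideanSpace ℝ (Fin (m + 1)) →L[ℝ] ℝ :=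
  EuclideanSpace.proj (Fin.last m)

theorem lastCoord_single (m : ℕ) (i : Fin (m + 1)) :
    lastCoord m (EuclideanSpace.single i (1 : ℝ)) = if i = Fin.last m then 1 else 0 := by
  unfold lastCoord
  show (EuclideanSpace.single i (1 : ℝ) : EuclideanSpace ℝ (Fin (m + 1))) (Fin.last m) = _
  rw [PiLp.single_apply]
  simp only [eq_comm]

/-- The wave. -/
noncomputable def wave (m : ℕ) (p : EuclideanSpace ℝ (Fin (m + 1)) × ℝ) : ℝ :=
  sigmoid ((√2)⁻¹ * lastCoord m p.1 + (3 / 2) * p.2)

theorem contDiff_wave (m : ℕ) : ContDiff ℝ 2 (wave m) := by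
  have h1 : ContDiff ℝ 2 sigmoid := contDiff_sigmoid.of_le (by exact_mod_cast le_top)
  have h2 : ContDiff ℝ 2 (fun p : EuclideanSpace ℝ (Fin (m + 1)) × ℝ =>
      (√2)⁻¹ * lastCoord m p.1 + (3 / 2) * p.2) := by
    have h3 : ContDiff ℝ 2 (fun p : EuclideanSpace ℝ (Fin (m + 1)) × ℝ => lastCoord m p.1) :=
      (lastCoord m).contDiff.comp contDiff_fst
    exact (contDiff_const.mul h3).add (contDiff_const.mul contDiff_snd)
  exact h1.comp h2

theorem hasFDerivAt_space (m : ℕ) (t : ℝ) (x : EuclideanSpace ℝ (Fin (m + 1))) :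
    HasFDerivAt (fun y => wave m (y, t))
      (((√2)⁻¹ * (wave m (x, t) * (1 - wave m (x, t)))) • lastCoord m) x := by
  have h1 := hasDerivAt_sigmoid ((√2)⁻¹ * lastCoord m x + (3 / 2) * t)
  have h2 : HasFDerivAt (fun y : EuclideanSpace ℝ (Fin (m + 1)) =>
      (√2)⁻¹ * lastCoord m y + (3 / 2) * t) ((√2)⁻¹ • lastCoord m) x := by
    have := ((lastCoord m).hasFDerivAt (x := x)).const_mul ((√2)⁻¹)
    exact this.add_const _
  have h3 := h1.comp_hasFDerivAt x h2
  have e : ((√2)⁻¹ * (wave m (x, t) * (1 - wave m (x, t)))) • lastCoord m =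
      (sigmoid ((√2)⁻¹ * lastCoord m x + (3 / 2) * t) *
        (1 - sigmoid ((√2)⁻¹ * lastCoord m x + (3 / 2) * t))) • ((√2)⁻¹ • lastCoord m) := by
    rw [smul_smul]
    congr 1
    unfold wave
    ring
  rw [e]
  exact h3

theorem fderiv_space (m : ℕ) (t : ℝ) :
    fderiv ℝ (fun y => wave m (y, t)) =
      fun x => ((√2)⁻¹ * (wave m (x, t) * (1 - wave m (x, t)))) • lastCoord m := by
  funext x
  exact (hasFDerivAt_space m t x).fderiv

theorem hasFDerivAt_fderiv (m : ℕ) (t : ℝ) (x : EuclideanSpace ℝ (Fin (m + 1))) :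
    HasFDerivAt (fun y => ((√2)⁻¹ * (wave m (y, t) * (1 - wave m (y, t)))) • lastCoord m)
      ((((√2)⁻¹ * ((√2)⁻¹ * (wave m (x, t) * (1 - wave m (x, t)) * (1 - 2 * wave m (x, t))))) •
        lastCoord m).smulRight (lastCoord m)) x := by
  have h1 := hasFDerivAt_space m t x
  have h2 : HasFDerivAt (fun y => (√2)⁻¹ * (wave m (y, t) * (1 - wave m (y, t))))
      (((√2)⁻¹ * ((√2)⁻¹ * (wave m (x, t) * (1 - wave m (x, t)) * (1 - 2 * wave m (x, t))))) •
        lastCoord m) x := by
    have h3 := (h1.mul (h1.const_sub 1)).const_mul ((√2)⁻¹)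
    refine h3.congr_fderiv ?_
    ext v
    simp
    ring
  exact h2.smul_const (lastCoord m)

theorem laplacian_wave (m : ℕ) (t : ℝ) (x : EuclideanSpace ℝ (Fin (m + 1))) :
    (∑ i : Fin (m + 1), iteratedFDeriv ℝ 2 (fun y => wave m (y, t)) x
          (fun _ => EuclideanSpace.single i (1 : ℝ))) =
      (1 / 2) * (wave m (x, t) * (1 - wave m (x, t)) * (1 - 2 * wave m (x, t))) := by
  have h1 : ∀ i : Fin (m + 1), iteratedFDeriv ℝ 2 (fun y => wave m (y, t)) x
          (fun _ => EuclideanSpace.single i (1 : ℝ)) =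
      (if i = Fin.last m then
      (1 / 2) * (wave m (x, t) * (1 - wave m (x, t)) * (1 - 2 * wave m (x, t))) else 0) := by
    intro i
    rw [iteratedFDeriv_two_apply, fderiv_space, (hasFDerivAt_fderiv m t x).fderiv]
    simp only [ContinuousLinearMap.smulRight_apply, _root_.smul_apply,
      lastCoord_single, smul_eq_mul]
    split_ifs with h
    · have h2 : (√2)⁻¹ * (√2)⁻¹ = 1 / 2 := by
        rw [← mul_inv, Real.mul_self_sqrt (by norm_num)]
        norm_num
      linear_combination (wave m (x, t) * (1 - wave m (x, t)) * (1 - 2 * wave m (x, t))) * h2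
    · simp
  rw [Finset.sum_congr rfl (fun i _ => h1 i)]
  simp

theorem hasDerivAt_time (m : ℕ) (x : EuclideanSpace ℝ (Fin (m + 1))) (t : ℝ) :
    HasDerivAt (fun s => wave m (x, s)) ((3 / 2) * (wave m (x, t) * (1 - wave m (x, t)))) t := by
  have h1 := hasDerivAt_sigmoid ((√2)⁻¹ * lastCoord m x + (3 / 2) * t)
  have h2 : HasDerivAt (fun s : ℝ => (√2)⁻¹ * lastCoord m x + (3 / 2) * s) (3 / 2) t := by
    simpa using ((hasDerivAt_id t).const_mul (3 / 2 : ℝ)).const_add ((√2)⁻¹ * lastCoord m x)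
  have h3 := h1.comp t h2
  have e : (3 / 2) * (wave m (x, t) * (1 - wave m (x, t))) =
      sigmoid ((√2)⁻¹ * lastCoord m x + (3 / 2) * t) *
        (1 - sigmoid ((√2)⁻¹ * lastCoord m x + (3 / 2) * t)) * (3 / 2) := by
    unfold wave
    ring
  rw [e]
  exact h3

theorem wave_pos (m : ℕ) (p : EuclideanSpace ℝ (Fin (m + 1)) × ℝ) : 0 < wave m p :=
  sigmoid_pos _

theorem wave_lt_one (m : ℕ) (p : EuclideanSpace ℝ (Fin (m + 1)) × ℝ) : wave m p < 1 :=
  sigmoid_lt_one _

theorem wave_equation (m : ℕ) (x : EuclideanSpace ℝ (Fin (m + 1))) (t : ℝ) :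
    (∑ i : Fin (m + 1), iteratedFDeriv ℝ 2 (fun y => wave m (y, t)) x
          (fun _ => EuclideanSpace.single i (1 : ℝ)))
        - deriv (fun s => wave m (x, s)) t = wave m (x, t) ^ 3 - wave m (x, t) := by
  rw [laplacian_wave, (hasDerivAt_time m x t).deriv]
  ring

theorem wave_space_mono (m : ℕ) (x : EuclideanSpace ℝ (Fin (m + 1))) (t : ℝ) :
    0 < fderiv ℝ (fun y => wave m (y, t)) x (EuclideanSpace.single (Fin.last m) (1 : ℝ)) := by
  rw [fderiv_space]
  have h1 := wave_pos m (x, t)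
  have h2 := wave_lt_one m (x, t)
  have h3 : 0 < 1 - wave m (x, t) := by linarith
  simp only [_root_.smul_apply, lastCoord_single, smul_eq_mul]
  simp only [if_true, mul_one]
  positivity

theorem wave_time_mono (m : ℕ) (x : EuclideanSpace ℝ (Fin (m + 1))) (t : ℝ) :
    0 < deriv (fun s => wave m (x, s)) t := by
  rw [(hasDerivAt_time m x t).deriv]
  have h1 := wave_pos m (x, t)
  have h2 := wave_lt_one m (x, t)
  have h3 : 0 < 1 - wave m (x, t) := by linarith
  positivity

end Pool.Agent.helper26.HuxleyWave
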