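import Pool.Agent.helper23.HB.Stmts2

/-!
# HB, module CONV: from the model started at the origin to the two systems
-/

open MeasureTheory ProbabilityTheory Set Filter Topology
open scoped ENNReal NNReal

namespace Pool.Agent.helper26.HB

open Pool.Agent.helper23.HB

/-! ## paths -/

/-- the path of `Pth` given by a continuous function on `ℝ≥0` vanishing at `0` -/
noncomputable def toPth (f : ℝ≥0 → ℝ) (hf : Continuous f) (h0 : f 0 = 0) : Pth :=
  ⟨fun t => f t.toNNReal, hf.comp continuous_real_toNNReal, fun t ht => by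
    show f t.toNNReal = 0
    rw [Real.toNNReal_of_nonpos ht, h0]⟩

theorem toPth_apply (f : ℝ≥0 → ℝ) (hf : Continuous f) (h0 : f 0 = 0) (t : ℝ) :
    (toPth f hf h0 : ℝ → ℝ) t = f t.toNNReal := rfl

/-- evaluation at a variable time -/
theorem meas_eval {α : Type*} [MeasurableSpace α] {f : ℝ → α → ℝ}
    (hc : ∀ a, Continuous (fun s => f s a)) (hm : ∀ s, Measurable (f s)) {t : α → ℝ}
    (ht : Measurable t) : Measurable (fun a => f (t a) a) := by
  have h := measurable_uncurry_of_continuous_of_measurable (u := f) hc hm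
  exact h.comp (ht.prodMk measurable_id)

theorem meas_ite {α : Type*} [MeasurableSpace α] {d f g : α → ℝ} (t : ℝ) (hd : Measurable d)
    (hf : Measurable f) (hg : Measurable g) :
    Measurable (fun a => if t ≤ d a then f a else g a) :=
  Measurable.ite (measurableSet_le measurable_const hd) hf hg

/-- independence of path valued variables -/
theorem iIndep_pth {Ω : Type} [MeasurableSpace Ω] {P : Measure Ω} {ι : Type}
    {f : ι → Ω → ℝ≥0 → ℝ} (hf : iIndepFun f P) {g : ι → Ω → Pth}
    (hg : ∀ i ω t, (g i ω : ℝ → ℝ) t = f i ω t.toNNReal) : iIndepFun g P := by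
  rw [iIndepFun_iff_iIndep] at hf ⊢
  refine iIndep_of_iIndep_of_le hf fun i => ?_
  have h : @Measurable _ _ (MeasurableSpace.comap (f i) inferInstance) _ (g i) := by
    refine @measurable_to_pth _ (MeasurableSpace.comap (f i) inferInstance) _ fun t => ?_
    have h1 : @Measurable _ _ (MeasurableSpace.comap (f i) inferInstance) _ (f i) :=
      comap_measurable _
    have h2 : (fun ω => (g i ω : ℝ → ℝ) t) = (fun φ : ℝ≥0 → ℝ => φ t.toNNReal) ∘ f i := by
      funext ω; exact hg i ω t
    rw [h2]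
    exact (measurable_pi_apply _).comp h1
  exact h.comap_le

/-! ## analysis of the radial equation -/

section Rad

variable {lam : ℝ}

theorem drift_cont {r : ℝ → ℝ} {s : Set ℝ} (hr : ContinuousOn r s) (hp : ∀ t ∈ s, 0 < r t) :
    ContinuousOn (fun t => drift lam (r t)) s := by
  have h1 : ∀ t ∈ s, 2 * Real.sinh (r t) ≠ 0 := fun t ht =>
    (mul_pos two_pos (Real.sinh_pos_iff.2 (hp t ht))).ne'
  refine ContinuousOn.add (ContinuousOn.div (Real.continuous_cosh.comp_continuousOn hr)
    (continuousOn_const.mul (Real.continuous_sinh.comp_continuousOn hr)) h1) continuousOn_const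

theorem clk_cont {r : ℝ → ℝ} {s : Set ℝ} (hr : ContinuousOn r s) (hp : ∀ t ∈ s, 0 < r t) :
    ContinuousOn (fun t => 1 / (Real.sinh (r t)) ^ 2) s := by
  have h1 : ∀ t ∈ s, Real.sinh (r t) ^ 2 ≠ 0 := fun t ht =>
    (pow_pos (Real.sinh_pos_iff.2 (hp t ht)) 2).ne'
  exact ContinuousOn.div continuousOn_const ((Real.continuous_sinh.comp_continuousOn hr).pow 2) h1

theorem ii_of_cont {f : ℝ → ℝ} (hf : ContinuousOn f (Ici 0)) {s t : ℝ} (hs : 0 ≤ s)
    (ht : 0 ≤ t) : IntervalIntegrable f volume s t :=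
  ContinuousOn.intervalIntegrable (hf.mono fun _ hy => le_trans (le_min hs ht) hy.1)

end Rad

section Model

variable {Ω : Type} [MeasurableSpace Ω] {P : Measure Ω} {β lam : ℝ}
  {T : Lab → Ω → ℝ} {B W : Lab → ℝ≥0 → Ω → ℝ} {ρ θ : Lab → ℝ → Ω → ℝ}

theorem ne_app (p : Lab) (x : Bool) : p ++ [x] ≠ [] := by simp

/-- positivity on `[0, ∞)` of the radial coordinates of the particles different from the first -/
theorem rho_pos (H : HBBM β lam P T B W ρ θ) (p : Lab) (x : Bool) (ω : Ω) {t : ℝ} (ht : 0 ≤ t) :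
    0 < ρ (p ++ [x]) t ω := by
  rcases ht.eq_or_lt with h | h
  · rw [← h]
    cases p with
    | nil =>
      rw [List.nil_append, H.ρ_start]
      exact H.ρ_pos _ _ _ (H.T_pos _ _)
    | cons y p =>
      rw [List.cons_append, H.ρ_start]
      exact H.ρ_pos _ _ _ (H.T_pos _ _)
  · exact H.ρ_pos _ _ _ h

theorem rho_eqn (H : HBBM β lam P T B W ρ θ) (p : Lab) (x : Bool) (ω : Ω) {s t : ℝ} (hs : 0 ≤ s)
    (hst : s ≤ t) : ρ (p ++ [x]) t ω = ρ (p ++ [x]) s ω +
      (B (p ++ [x]) t.toNNReal ω - B (p ++ [x]) s.toNNReal ω) +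
        ∫ y in s..t, drift lam (ρ (p ++ [x]) y ω) := by
  have ht : 0 ≤ t := hs.trans hst
  have h1 := H.ρ_eqn (p ++ [x]) ω t ht
  have h2 := H.ρ_eqn (p ++ [x]) ω s hs
  have hc : ContinuousOn (fun y => drift lam (ρ (p ++ [x]) y ω)) (Ici 0) :=
    drift_cont (H.ρ_cont _ _) fun y hy => rho_pos H p x ω hy
  have h3 := intervalIntegral.integral_add_adjacent_intervals (ii_of_cont hc le_rfl hs)
    (ii_of_cont hc hs ht)
  simp only [drift] at h3 ⊢
  rw [h1, h2, ← h3]
  ring

/-- the radial coordinate at the absolute time `t` along the line of `p` in the subtree of `[x]` -/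
noncomputable def RR (T : Lab → Ω → ℝ) (ρ : Lab → ℝ → Ω → ℝ) (x : Bool) (ω : Ω) :
    Lab → ℝ → ℝ
  | [], t => ρ [x] (max t 0) ω
  | y :: p, t => if t ≤ death (sh [x] (fun u => T u ω)) p then RR T ρ x ω p t
      else ρ (y :: p ++ [x]) (max (t - death (sh [x] (fun u => T u ω)) p) 0) ω

omit [MeasurableSpace Ω] in
theorem RR_old (x : Bool) (ω : Ω) (y : Bool) (p : Lab) {t : ℝ}
    (ht : t ≤ death (sh [x] (fun u => T u ω)) p) :
    RR T ρ x ω (y :: p) t = RR T ρ x ω p t := by
  rw [RR, if_pos ht]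

theorem sh_T_pos (H : HBBM β lam P T B W ρ θ) (x : Bool) (ω : Ω) :
    ∀ u, 0 < sh [x] (fun u => T u ω) u := fun _ => H.T_pos _ _

/-- after the birth of `p` -/
theorem RR_new (H : HBBM β lam P T B W ρ θ) (x : Bool) (ω : Ω) (p : Lab) {t : ℝ}
    (ht : birth (sh [x] (fun u => T u ω)) p ≤ t) :
    RR T ρ x ω p t = ρ (p ++ [x]) (t - birth (sh [x] (fun u => T u ω)) p) ω := by
  have hpos := sh_T_pos H x ω
  induction p generalizing t with
  | nil =>
    have h0 : birth (sh [x] (fun u => T u ω)) [] = 0 := rfl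
    rw [h0] at ht
    rw [RR, h0, sub_zero, max_eq_left ht, List.nil_append]
  | cons y p ih =>
    have hb : birth (sh [x] (fun u => T u ω)) (y :: p) = death (sh [x] (fun u => T u ω)) p := rfl
    rw [hb] at ht ⊢
    by_cases h : t ≤ death (sh [x] (fun u => T u ω)) p
    · have he : t = death (sh [x] (fun u => T u ω)) p := le_antisymm h ht
      rw [RR_old x ω y p h, ih (by rw [he]; exact (birth_lt_death hpos p).le), he, sub_self,
        List.cons_append, H.ρ_start]
      congr 1
      show birth _ p + T (p ++ [x]) ω - birth _ p = T (p ++ [x]) ω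
      ring
    · rw [RR, if_neg h, max_eq_left (sub_nonneg.2 ht)]

theorem RR_pos (H : HBBM β lam P T B W ρ θ) (x : Bool) (ω : Ω) (p : Lab) (t : ℝ) :
    0 < RR T ρ x ω p t := by
  induction p with
  | nil =>
    rw [RR]
    exact rho_pos H [] x ω (le_max_right _ _)
  | cons y p ih =>
    by_cases h : t ≤ death (sh [x] (fun u => T u ω)) p
    · rw [RR_old x ω y p h]; exact ih
    · rw [RR, if_neg h]
      exact rho_pos H (y :: p) x ω (le_max_right _ _)

theorem RR_cont (H : HBBM β lam P T B W ρ θ) (x : Bool) (ω : Ω) (p : Lab) :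
    Continuous (RR T ρ x ω p) := by
  have hρ : ∀ (q : Lab) (d : ℝ), Continuous (fun t => ρ (q ++ [x]) (max (t - d) 0) ω) := by
    intro q d
    have h1 : Continuous (fun t : ℝ => max (t - d) 0) :=
      (continuous_id.sub continuous_const).max continuous_const
    exact (H.ρ_cont (q ++ [x]) ω).comp_continuous h1 fun t => mem_Ici.2 (le_max_right _ _)
  induction p with
  | nil =>
    have h := hρ [] 0
    simp only [sub_zero, List.nil_append] at h
    exact h
  | cons y p ih =>
    have he : RR T ρ x ω (y :: p) = fun t => if t ≤ death (sh [x] (fun u => T u ω)) p then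
        RR T ρ x ω p t
      else ρ (y :: p ++ [x]) (max (t - death (sh [x] (fun u => T u ω)) p) 0) ω := by
      funext t
      rw [RR]
    rw [he]
    refine Continuous.if_le ih (hρ (y :: p) _) continuous_id continuous_const ?_
    intro t ht
    rw [ht, sub_self, max_self, RR_new H x ω p (birth_lt_death (sh_T_pos H x ω) p).le,
      List.cons_append, H.ρ_start]
    congr 1
    show birth _ p + T (p ++ [x]) ω - birth _ p = T (p ++ [x]) ω
    ring

/-- increments of a line after the birth of its last particle -/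
theorem line_incr (τ : Lab → ℝ) (b : Lab → Pth) (p : Lab) {s t : ℝ} (hs : birth τ p ≤ s)
    (ht : birth τ p ≤ t) : line τ b p t - line τ b p s =
      (b p : ℝ → ℝ) (t - birth τ p) - (b p : ℝ → ℝ) (s - birth τ p) := by
  cases p with
  | nil =>
    have h0 : birth τ [] = 0 := rfl
    rw [line_nil, line_nil, h0, sub_zero, sub_zero]
  | cons y q =>
    have hb : birth τ (y :: q) = death τ q := rfl
    rw [hb] at hs ht ⊢
    rw [line_cons, line_cons, min_eq_right hs, min_eq_right ht]
    ring

variable (H : HBBM β lam P T B W ρ θ)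

/-- the path valued radial noises of the subtree -/
noncomputable def BB (x : Bool) (ω : Ω) (p : Lab) : Pth :=
  toPth (fun t => B (p ++ [x]) t ω) (H.B_cont _ _) (H.B_zero _ _)

/-- the path valued angular noises of the subtree -/
noncomputable def WW (x : Bool) (ω : Ω) (p : Lab) : Pth :=
  toPth (fun t => W (p ++ [x]) t ω) (H.W_cont _ _) (H.W_zero _ _)

theorem RR_eqn_new (x : Bool) (ω : Ω) (p : Lab) {s t : ℝ}
    (hs : birth (sh [x] (fun u => T u ω)) p ≤ s) (hst : s ≤ t) :
    RR T ρ x ω p t = RR T ρ x ω p s +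
      (line (sh [x] (fun u => T u ω)) (BB H x ω) p t -
        line (sh [x] (fun u => T u ω)) (BB H x ω) p s) +
        ∫ y in s..t, drift lam (RR T ρ x ω p y) := by
  set b := birth (sh [x] (fun u => T u ω)) p with hb
  have h1 := rho_eqn H p x ω (s := s - b) (t := t - b) (sub_nonneg.2 hs) (by linarith)
  rw [RR_new H x ω p (hs.trans hst), RR_new H x ω p hs, line_incr _ _ _ hs (hs.trans hst), h1]
  have h2 : ∫ y in s..t, drift lam (RR T ρ x ω p y) =
      ∫ y in s..t, drift lam (ρ (p ++ [x]) (y - b) ω) := by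
    refine intervalIntegral.integral_congr fun y hy => ?_
    rw [uIcc_of_le hst] at hy
    show drift lam (RR T ρ x ω p y) = _
    rw [RR_new H x ω p (hs.trans hy.1)]
  rw [h2, intervalIntegral.integral_comp_sub_right (fun y => drift lam (ρ (p ++ [x]) y ω)) b]
  rfl

theorem RR_eqn (x : Bool) (ω : Ω) (p : Lab) {s t : ℝ} (hs : 0 ≤ s) (hst : s ≤ t) :
    RR T ρ x ω p t = RR T ρ x ω p s +
      (line (sh [x] (fun u => T u ω)) (BB H x ω) p t -
        line (sh [x] (fun u => T u ω)) (BB H x ω) p s) +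
        ∫ y in s..t, drift lam (RR T ρ x ω p y) := by
  induction p generalizing s t with
  | nil => exact RR_eqn_new H x ω [] hs hst
  | cons z q ih =>
    set τ := sh [x] (fun u => T u ω) with hτ
    set d := death τ q with hd
    have hold : ∀ {s t : ℝ}, 0 ≤ s → s ≤ t → t ≤ d → RR T ρ x ω (z :: q) t =
        RR T ρ x ω (z :: q) s + (line τ (BB H x ω) (z :: q) t - line τ (BB H x ω) (z :: q) s) +
        ∫ y in s..t, drift lam (RR T ρ x ω (z :: q) y) := by
      intro s t hs hst htd
      rw [RR_old x ω z q htd, RR_old x ω z q (hst.trans htd), line_old _ _ _ _ htd,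
        line_old _ _ _ _ (hst.trans htd), ih hs hst]
      congr 1
      refine intervalIntegral.integral_congr fun y hy => ?_
      rw [uIcc_of_le hst] at hy
      show drift lam (RR T ρ x ω q y) = drift lam (RR T ρ x ω (z :: q) y)
      rw [RR_old x ω z q (hy.2.trans htd)]
    by_cases htd : t ≤ d
    · exact hold hs hst htd
    · by_cases hsd : d ≤ s
      · exact RR_eqn_new H x ω (z :: q) hsd hst
      · have h1 := hold hs (not_le.1 hsd).le le_rfl
        have h2 := RR_eqn_new H x ω (z :: q) (s := d) (t := t) le_rfl (not_le.1 htd).le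
        have hd0 : 0 ≤ d := hs.trans (not_le.1 hsd).le
        have hc : ContinuousOn (fun y => drift lam (RR T ρ x ω (z :: q) y)) (Ici 0) :=
          drift_cont (RR_cont H x ω _).continuousOn fun y _ => RR_pos H x ω _ _
        have h3 := intervalIntegral.integral_add_adjacent_intervals (ii_of_cont hc hs hd0)
          (ii_of_cont hc hd0 (hs.trans hst))
        rw [h2, h1, ← h3]
        ring

theorem RR_sol (x : Bool) (ω : Ω) (p : Lab) :
    RSol lam (line (sh [x] (fun u => T u ω)) (BB H x ω) p) (RR T ρ x ω p) where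
  pos t _ := RR_pos H x ω p t
  cont := (RR_cont H x ω p).continuousOn
  eqn _ _ hs hst := RR_eqn H x ω p hs hst

include H in
theorem RR_zero (x : Bool) (ω : Ω) (p : Lab) : RR T ρ x ω p 0 = ρ [x] 0 ω := by
  induction p with
  | nil => rw [RR, max_self]
  | cons y q ih => rw [RR_old x ω y q (death_pos (sh_T_pos H x ω) q).le, ih]

/-- the radial information -/
def YY (T : Lab → Ω → ℝ) (B : Lab → ℝ≥0 → Ω → ℝ) (ρ θ : Lab → ℝ → Ω → ℝ) (ω : Ω) :
    (Lab → ℝ) × (Lab → ℝ≥0 → ℝ) × (Lab → ℝ≥0 → ℝ) × (ℝ≥0 → ℝ) :=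
  ((fun (u : Lab) => T u ω), (fun (u : Lab) (t : ℝ≥0) => B u t ω),
      (fun (u : Lab) (t : ℝ≥0) => ρ u t ω), (fun (t : ℝ≥0) => θ [] t ω))

/-- the sigma-algebra of the radial information -/
@[instance_reducible]
def mY (T : Lab → Ω → ℝ) (B : Lab → ℝ≥0 → Ω → ℝ) (ρ θ : Lab → ℝ → Ω → ℝ) :
    MeasurableSpace Ω := MeasurableSpace.comap (YY T B ρ θ) inferInstance

omit [MeasurableSpace Ω] in
theorem mY_comap : Measurable[mY T B ρ θ] (YY T B ρ θ) := comap_measurable _

omit [MeasurableSpace Ω] in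
theorem mY_T (u : Lab) : Measurable[mY T B ρ θ] (T u) :=
  (measurable_pi_apply u).comp (measurable_fst.comp mY_comap)

omit [MeasurableSpace Ω] in
theorem mY_B (u : Lab) (t : ℝ≥0) : Measurable[mY T B ρ θ] (B u t) :=
  (measurable_pi_apply t).comp ((measurable_pi_apply u).comp
    (measurable_fst.comp (measurable_snd.comp mY_comap)))

omit [MeasurableSpace Ω] in
theorem mY_ρ (u : Lab) (t : ℝ) (ht : 0 ≤ t) : Measurable[mY T B ρ θ] (ρ u t) := by
  have h : Measurable[mY T B ρ θ] (fun ω => ρ u ((⟨t, ht⟩ : ℝ≥0) : ℝ) ω) :=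
    (measurable_pi_apply (⟨t, ht⟩ : ℝ≥0)).comp ((measurable_pi_apply u).comp
      (measurable_fst.comp (measurable_snd.comp (measurable_snd.comp mY_comap))))
  exact h

omit [MeasurableSpace Ω] in
theorem mY_θ (t : ℝ) (ht : 0 ≤ t) : Measurable[mY T B ρ θ] (θ [] t) := by
  have h : Measurable[mY T B ρ θ] (fun ω => θ [] ((⟨t, ht⟩ : ℝ≥0) : ℝ) ω) :=
    (measurable_pi_apply (⟨t, ht⟩ : ℝ≥0)).comp
      (measurable_snd.comp (measurable_snd.comp (measurable_snd.comp mY_comap)))
  exact h

theorem mY_le (H : HBBM β lam P T B W ρ θ) : mY T B ρ θ ≤ ‹MeasurableSpace Ω› := by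
  have h : Measurable (YY T B ρ θ) := by
    refine Measurable.prodMk ?_ (Measurable.prodMk ?_ (Measurable.prodMk ?_ ?_))
    · exact measurable_pi_lambda _ fun u => H.T_meas u
    · exact measurable_pi_lambda _ fun u => measurable_pi_lambda _ fun t => H.B_meas u t
    · exact measurable_pi_lambda _ fun u => measurable_pi_lambda _ fun t => H.ρ_meas u t
    · exact measurable_pi_lambda _ fun t => H.θ_meas [] t
  exact h.comap_le

omit [MeasurableSpace Ω] in
theorem mY_death (x : Bool) (p : Lab) :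
    Measurable[mY T B ρ θ] (fun ω => death (sh [x] (fun u => T u ω)) p) := by
  have h : Measurable[mY T B ρ θ] (fun ω => sh [x] (fun u => T u ω)) :=
    (measurable_sh [x]).comp (measurable_fst.comp mY_comap)
  exact (measurable_death p).comp h

theorem mY_RR (H : HBBM β lam P T B W ρ θ) (x : Bool) (p : Lab) (t : ℝ) :
    Measurable[mY T B ρ θ] (fun ω => RR T ρ x ω p t) := by
  induction p with
  | nil =>
    have h := mY_ρ (T := T) (B := B) (ρ := ρ) (θ := θ) [x] (max t 0) (le_max_right _ _)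
    exact h
  | cons y q ih =>
    have he : (fun ω => RR T ρ x ω (y :: q) t) = fun ω =>
        if t ≤ death (sh [x] (fun u => T u ω)) q then RR T ρ x ω q t
        else ρ (y :: q ++ [x]) (max (t - death (sh [x] (fun u => T u ω)) q) 0) ω := by
      funext ω
      rw [RR]
    rw [he]
    have hd := mY_death (T := T) (B := B) (ρ := ρ) (θ := θ) x q
    refine @meas_ite _ (mY T B ρ θ) _ _ _ t hd ih ?_
    · refine @meas_eval _ (mY T B ρ θ) (fun s ω => ρ (y :: q ++ [x]) (max s 0) ω) ?_ ?_
        (fun ω => t - death (sh [x] (fun u => T u ω)) q) ?_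
      · intro ω
        exact (H.ρ_cont (y :: q ++ [x]) ω).comp_continuous (continuous_id.max continuous_const)
          fun t => mem_Ici.2 (le_max_right _ _)
      · intro s
        exact mY_ρ (T := T) (B := B) (ρ := ρ) (θ := θ) (y :: q ++ [x]) (max s 0) (le_max_right _ _)
      · exact hd.const_sub t

theorem mY_θ0 (H : HBBM β lam P T B W ρ θ) :
    Measurable[mY T B ρ θ] (fun ω => θ [] (T [] ω) ω) := by
  have h : Measurable[mY T B ρ θ] (fun ω => θ [] (Real.exp (Real.log (T [] ω))) ω) := by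
    refine @meas_eval _ (mY T B ρ θ) (fun s ω => θ [] (Real.exp s) ω) ?_ ?_
      (fun ω => Real.log (T [] ω)) ?_
    · intro ω
      exact (H.θ_cont [] ω).comp_continuous Real.continuous_exp fun t => mem_Ioi.2 (Real.exp_pos t)
    · intro s
      exact mY_θ (T := T) (B := B) (ρ := ρ) (θ := θ) (Real.exp s) (Real.exp_pos s).le
    · exact Real.measurable_log.comp (mY_T [])
  have he : (fun ω => θ [] (Real.exp (Real.log (T [] ω))) ω) = fun ω => θ [] (T [] ω) ω := by
    funext ω
    rw [Real.exp_log (H.T_pos [] ω)]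
  rwa [he] at h

theorem life_sh (H : HBBM β lam P T B W ρ θ) (x : Bool) :
    Life β P (fun ω => sh [x] (fun u => T u ω)) where
  pos _ _ := H.T_pos _ _
  meas _ := H.T_meas _
  law _ t ht := H.T_law _ t ht
  indep := H.T_indep.precomp (g := fun u : Lab => u ++ [x]) (List.append_left_injective [x])

theorem noise_B (H : HBBM β lam P T B W ρ θ) (x : Bool) : Noise P (BB H x) where
  meas u := measurable_to_pth fun t => H.B_meas _ _
  bm u := by
    have h := (H.B_bm (u ++ [x])).toIsPreBrownianReal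
    have he : (fun (t : ℝ≥0) ω => (BB H x ω u : ℝ → ℝ) (t : ℝ)) = B (u ++ [x]) := by
      funext t ω
      show B (u ++ [x]) (Real.toNNReal (t : ℝ)) ω = _
      rw [Real.toNNReal_coe]
    rw [he]
    exact h
  indep := iIndep_pth
    (H.B_indep.precomp (g := fun u : Lab => u ++ [x]) (List.append_left_injective [x]))
    (fun u ω t => rfl)

theorem noise_W (H : HBBM β lam P T B W ρ θ) (x : Bool) : Noise P (WW H x) where
  meas u := measurable_to_pth fun t => H.W_meas _ _
  bm u := by
    have h := (H.W_bm (u ++ [x]) (ne_app u x)).toIsPreBrownianReal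
    have he : (fun (t : ℝ≥0) ω => (WW H x ω u : ℝ → ℝ) (t : ℝ)) = W (u ++ [x]) := by
      funext t ω
      show W (u ++ [x]) (Real.toNNReal (t : ℝ)) ω = _
      rw [Real.toNNReal_coe]
    rw [he]
    exact h
  indep := iIndep_pth
    (H.W_indep.precomp (g := fun u : Lab => (⟨u ++ [x], ne_app u x⟩ : {u : Lab // u ≠ []}))
      (fun u v huv => List.append_left_injective [x] (Subtype.mk.inj huv)))
    (fun u ω t => rfl)

theorem indep_TB (H : HBBM β lam P T B W ρ θ) (x : Bool) :
    IndepFun (fun ω => sh [x] (fun u => T u ω)) (BB H x) P := by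
  rw [IndepFun_iff_Indep]
  refine indep_of_indep_of_le ((IndepFun_iff_Indep _ _ _).1 H.TB_indep) ?_ ?_
  · refine Measurable.comap_le ?_
    exact (measurable_sh [x]).comp (comap_measurable _)
  · refine Measurable.comap_le ?_
    refine @measurable_pi_lambda _ _ _ (MeasurableSpace.comap _ _) _ _ fun u => ?_
    refine @measurable_to_pth _ (MeasurableSpace.comap _ _) _ fun t => ?_
    exact (measurable_pi_apply t.toNNReal).comp ((measurable_pi_apply (u ++ [x])).comp
      (comap_measurable (fun ω (u : Lab) (t : ℝ≥0) => B u t ω)))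

theorem indep_W (H : HBBM β lam P T B W ρ θ) (x : Bool) :
    Indep (mY T B ρ θ) (MeasurableSpace.comap (WW H x) inferInstance) P := by
  have h := ((IndepFun_iff_Indep _ _ _).1 H.W_radial_indep).symm
  refine indep_of_indep_of_le h le_rfl ?_
  refine Measurable.comap_le ?_
  refine @measurable_pi_lambda _ _ _ (MeasurableSpace.comap _ _) _ _ fun u => ?_
  refine @measurable_to_pth _ (MeasurableSpace.comap _ _) _ fun t => ?_
  exact (measurable_pi_apply t.toNNReal).comp
    ((measurable_pi_apply (⟨u ++ [x], ne_app u x⟩ : {u : Lab // u ≠ []})).comp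
      (comap_measurable (fun ω (u : {u : Lab // u ≠ []}) (t : ℝ≥0) => W u.1 t ω)))

/-- the system of the subtree of `[x]` -/
noncomputable def SS (H : HBBM β lam P T B W ρ θ) (x : Bool) : Sys β lam P where
  T := fun ω => sh [x] (fun u => T u ω)
  B := BB H x
  W := WW H x
  ρ0 := fun ω => ρ [x] 0 ω
  θ0 := fun ω => θ [] (T [] ω) ω
  R := fun ω => RR T ρ x ω
  life := life_sh H x
  noiseB := noise_B H x
  noiseW := noise_W H x
  indepTB := indep_TB H x
  start := fun ω u => RR_zero H x ω u
  rad := fun ω u => RR_sol H x ω u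
  old := fun ω y u t _ ht => RR_old x ω y u ht
  mR := mY T B ρ θ
  mR_le := mY_le H
  measT := fun u => mY_T (u ++ [x])
  measB := fun u => by
    refine @measurable_to_pth _ (mY T B ρ θ) _ fun t => ?_
    exact mY_B (u ++ [x]) t.toNNReal
  measρ := mY_ρ [x] 0 le_rfl
  measθ := mY_θ0 H
  measR := fun u t _ => mY_RR H x u t
  indepW := indep_W H x

theorem RR_radOK (H : HBBM β lam P T B W ρ θ) (x : Bool) (ω : Ω) :
    RadOK lam (sh [x] (fun u => T u ω)) (BB H x ω) (RR T ρ x ω) where
  pos := sh_T_pos H x ω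
  rad := RR_sol H x ω
  old := fun y u _ _ ht => RR_old x ω y u ht

/-- increments of the clock after the birth -/
theorem clk_new (H : HBBM β lam P T B W ρ θ) (x : Bool) (ω : Ω) (p : Lab) {t : ℝ}
    (ht : birth (sh [x] (fun u => T u ω)) p ≤ t) :
    clk (RR T ρ x ω p) t - clk (RR T ρ x ω p) (birth (sh [x] (fun u => T u ω)) p) =
      ∫ s in (0 : ℝ)..(t - birth (sh [x] (fun u => T u ω)) p),
        1 / (Real.sinh (ρ (p ++ [x]) s ω)) ^ 2 := by
  have hpos := sh_T_pos H x ω
  set b := birth (sh [x] (fun u => T u ω)) p with hb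
  have hb0 : 0 ≤ b := birth_nonneg hpos p
  have hc : ContinuousOn (fun y => 1 / (Real.sinh (RR T ρ x ω p y)) ^ 2) (Ici 0) :=
    clk_cont (RR_cont H x ω _).continuousOn fun y _ => RR_pos H x ω _ _
  have h3 := intervalIntegral.integral_add_adjacent_intervals (ii_of_cont hc le_rfl hb0)
    (ii_of_cont hc hb0 (hb0.trans ht))
  have h4 : clk (RR T ρ x ω p) t - clk (RR T ρ x ω p) b =
      ∫ y in b..t, 1 / (Real.sinh (RR T ρ x ω p y)) ^ 2 := by
    unfold clk
    rw [← h3]
    ring
  rw [h4]
  have h2 : ∫ y in b..t, 1 / (Real.sinh (RR T ρ x ω p y)) ^ 2 =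
      ∫ y in b..t, 1 / (Real.sinh (ρ (p ++ [x]) (y - b) ω)) ^ 2 := by
    refine intervalIntegral.integral_congr fun y hy => ?_
    rw [uIcc_of_le ht] at hy
    show 1 / (Real.sinh (RR T ρ x ω p y)) ^ 2 = _
    rw [RR_new H x ω p hy.1]
  rw [h2, intervalIntegral.integral_comp_sub_right
    (fun y => 1 / (Real.sinh (ρ (p ++ [x]) y ω)) ^ 2) b, sub_self]

theorem clk_mono_new (H : HBBM β lam P T B W ρ θ) (x : Bool) (ω : Ω) (p : Lab) {t : ℝ}
    (ht : birth (sh [x] (fun u => T u ω)) p ≤ t) :
    clk (RR T ρ x ω p) (birth (sh [x] (fun u => T u ω)) p) ≤ clk (RR T ρ x ω p) t := by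
  have h := clk_new H x ω p ht
  have h2 : 0 ≤ ∫ s in (0 : ℝ)..(t - birth (sh [x] (fun u => T u ω)) p),
        1 / (Real.sinh (ρ (p ++ [x]) s ω)) ^ 2 :=
    intervalIntegral.integral_nonneg (sub_nonneg.2 ht) fun u _ => by positivity
  linarith

/-- the angular coordinate -/
theorem ang_new (hCLK : St_CLK) (H : HBBM β lam P T B W ρ θ) (x : Bool) (ω : Ω) (p : Lab) {t : ℝ}
    (ht : birth (sh [x] (fun u => T u ω)) p ≤ t) :
    ang (θ [] (T [] ω) ω) (sh [x] (fun u => T u ω)) (RR T ρ x ω) (WW H x ω) p t =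
      θ (p ++ [x]) (t - birth (sh [x] (fun u => T u ω)) p) ω := by
  obtain ⟨_, _, hC3, hC4, _, _⟩ := hCLK lam _ _ _ (RR_radOK H x ω)
  have hpos := sh_T_pos H x ω
  induction p generalizing t with
  | nil =>
    have h0 : birth (sh [x] (fun u => T u ω)) [] = 0 := rfl
    have hcl := clk_new H x ω [] ht
    rw [h0] at ht hcl ⊢
    rw [sub_zero, List.nil_append] at hcl ⊢
    have hz : clk (RR T ρ x ω []) 0 = 0 := by
      unfold clk
      rw [intervalIntegral.integral_same]
    rw [hz, sub_zero] at hcl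
    have h1 := H.θ_eqn x [] ω t ht
    rw [h1]
    unfold ang
    rw [line_nil, hcl]
    rfl
  | cons y q ih =>
    set τ := sh [x] (fun u => T u ω) with hτ
    have hb : birth τ (y :: q) = death τ q := rfl
    have hcl := clk_new H x ω (y :: q) ht
    have hmono := clk_mono_new H x ω (y :: q) ht
    rw [← hτ, hb] at hcl hmono
    rw [hb] at ht ⊢
    set d := death τ q with hd
    have hbd : birth τ q ≤ d := (birth_lt_death hpos q).le
    have hd0 : 0 ≤ d := (death_pos hpos q).le
    have hold : clk (RR T ρ x ω (y :: q)) d = clk (RR T ρ x ω q) d := by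
      have h := hC4 [y] q d hd0 le_rfl
      exact h
    have h1 := H.θ_eqn y (q ++ [x]) ω (t - d) (sub_nonneg.2 ht)
    have h2 := ih hbd
    have h3 : d - birth τ q = T (q ++ [x]) ω := by
      show birth τ q + T (q ++ [x]) ω - birth τ q = T (q ++ [x]) ω
      ring
    rw [h3] at h2
    rw [List.cons_append, h1, ← h2]
    unfold ang
    rw [line_cons, hC3 q, ← hd, ← hold, min_eq_right hmono, hcl]
    rw [add_assoc]
    rfl

/-- the conversion -/
theorem mCONV (hCLK : St_CLK) : St_CONV := by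
  intro Ω _ P _ β lam T B W ρ θ H x
  refine ⟨SS H x, fun ω => rfl, ?_⟩
  intro ω p t hp
  have hb : birth (sh [x] (fun u => T u ω)) p ≤ t := hp.1
  have hbt : T [] ω + t - birth (fun u => T u ω) (p ++ [x]) =
      t - birth (sh [x] (fun u => T u ω)) p := by
    rw [birth_append]
    show T [] ω + t - (0 + T [] ω + _) = _
    ring
  unfold posZ Sys.Z Sys.D Sys.Th
  rw [hbt]
  show ((Real.tanh (RR T ρ x ω p t / 2) : ℝ) : ℂ) *
    cis (ang (θ [] (T [] ω) ω) (sh [x] (fun u => T u ω)) (RR T ρ x ω) (WW H x ω) p t) = _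
  rw [RR_new H x ω p hb, ang_new hCLK H x ω p hb]

end Model

end Pool.Agent.helper26.HB
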