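import Pool.Agent.helper23.HB.Stmts

/-!
# HB, module EN2: energy bound in a subtree
-/

open MeasureTheory ProbabilityTheory Set Filter Topology
open scoped ENNReal NNReal

namespace Pool.Agent.helper26.HB

open Pool.Agent.helper23.HB

namespace EN2

theorem gdset_meas (a η K h : ℝ) : MeasurableSet (gdset a η K h) := by
  have h1 : IsClosed (gdset a η K h) := by
    refine IsClosed.inter (s₁ := {x : ℝ × ℝ | |x.1 - a * h| ≤ η * h})
      (s₂ := {x : ℝ × ℝ | x.2 ≤ K * h}) ?_ ?_
    · exact isClosed_le ((continuous_fst.sub continuous_const).abs) continuous_const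
    · exact isClosed_le continuous_snd continuous_const
  exact h1.measurableSet

theorem Gd2_meas (h : ℝ) {gd : Set (ℝ × ℝ)} (hgd : MeasurableSet gd) (n : ℕ) (p : Lab) :
    MeasurableSet {x : (Lab → ℝ) × (Lab → Pth) | p ∈ Gd2 h gd n x.1 x.2} := by
  have h1 : MeasurableSet {x : (Lab → ℝ) × (Lab → Pth) | p ∈ Alive x.1 (n * h)} :=
    measurable_fst (measurableSet_Alive_left p (n * h))
  have h2 : MeasurableSet {x : (Lab → ℝ) × (Lab → Pth) | GoodB h gd n (line x.1 x.2 p)} := by
    have he : {x : (Lab → ℝ) × (Lab → Pth) | GoodB h gd n (line x.1 x.2 p)} =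
        ⋂ k : ℕ, ⋂ _ : k < n, {x | blk h (line x.1 x.2 p) k ∈ gd} := by
      ext x
      simp [GoodB]
    rw [he]
    refine MeasurableSet.iInter fun k => MeasurableSet.iInter fun _ => ?_
    exact ((measurable_pi_apply k).comp (measurable_blk_line h p)) hgd
  exact h1.inter h2

/-- the event of a far pair of good particles -/
def Ev (h : ℝ) (gd : Set (ℝ × ℝ)) (n : ℕ) (z : Quad) : Set ((Lab → ℝ) × (Lab → Pth)) :=
  {x | qu z ∈ Gd2 h gd n x.1 x.2 ∧ qv z ∈ Gd2 h gd n x.1 x.2 ∧
    ¬(((n : ℝ) - 1) * h ≤ death x.1 z.1)}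

theorem Ev_meas (h : ℝ) {gd : Set (ℝ × ℝ)} (hgd : MeasurableSet gd) (n : ℕ) (z : Quad) :
    MeasurableSet (Ev h gd n z) := by
  refine (Gd2_meas h hgd n (qu z)).inter ((Gd2_meas h hgd n (qv z)).inter ?_)
  exact (measurableSet_le measurable_const ((measurable_death z.1).comp measurable_fst)).compl

theorem qu_app (z : Quad) (u : Lab) : qu (z.1 ++ u, z.2.1, z.2.2.1, z.2.2.2) = qu z ++ u := by
  simp [qu]

theorem qv_app (z : Quad) (u : Lab) : qv (z.1 ++ u, z.2.1, z.2.2.1, z.2.2.2) = qv z ++ u := by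
  simp [qv]

/-- the final elementary inequality -/
theorem pow_bound {s m A D γ x : ℝ} (hs : 0 < s) (hm : 0 < m) (hD : 0 ≤ D)
    (hγ : s * A ≤ γ) (hx : m * Real.exp (-2 * (A * D)) ≤ x) :
    ENNReal.ofReal x ^ (-(s / 2)) ≤
      ENNReal.ofReal (m ^ (-(s / 2))) * ENNReal.ofReal (Real.exp (γ * D)) := by
  have h0 : 0 < m * Real.exp (-2 * (A * D)) := mul_pos hm (Real.exp_pos _)
  have h1 : ENNReal.ofReal x ^ (-(s / 2)) ≤
      ENNReal.ofReal (m * Real.exp (-2 * (A * D))) ^ (-(s / 2)) := by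
    rw [ENNReal.rpow_neg, ENNReal.rpow_neg]
    refine ENNReal.inv_le_inv.2 (ENNReal.rpow_le_rpow (ENNReal.ofReal_le_ofReal hx) (by linarith))
  refine h1.trans ?_
  rw [ENNReal.ofReal_rpow_of_pos h0, Real.mul_rpow hm.le (Real.exp_pos _).le,
    ENNReal.ofReal_mul (Real.rpow_nonneg hm.le _)]
  refine mul_le_mul' le_rfl (ENNReal.ofReal_le_ofReal ?_)
  rw [← Real.exp_mul]
  refine Real.exp_le_exp.2 ?_
  have h2 : -2 * (A * D) * -(s / 2) = (s * A) * D := by ring
  rw [h2]
  exact mul_le_mul_of_nonneg_right hγ hD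

end EN2

open EN2 in
/-- energy bound in a subtree -/
theorem mEN2 (hPAIR : St_PAIR) (hSUBR : St_SUBR) (hCK : St_CK) (hMSYS : St_MSYS) : St_EN2 := by
  intro η hη
  obtain ⟨r1, hr1, hsub⟩ := hSUBR η hη
  refine ⟨r1, hr1, ?_⟩
  intro Ω _ P _ β lam hβ hlam S u a K h κ s γ K0 K1 hs hs1 hηa hh hK hκ hsγ hK0
  obtain ⟨CP, hCP, hpair⟩ := hPAIR s hs hs1
  obtain ⟨-, -, -, -, hDm, -⟩ := hMSYS Ω P β lam S
  set c : ℝ := lam + 1 / 2 with hc
  have hc0 : 0 < c := by rw [hc]; linarith
  set Z1 : ℝ := K1 + (a + 2 * η) * h + (K + |a - c| + η) * h with hZ1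
  set m : ℝ := min 1 (4 * h * Real.exp (-2 * Z1)) with hm
  have hm0 : 0 < m := lt_min one_pos (mul_pos (by linarith) (Real.exp_pos _))
  refine ⟨CP * ENNReal.ofReal (m ^ (-(s / 2))) * ENNReal.ofReal K0,
    ENNReal.mul_ne_top (ENNReal.mul_ne_top hCP ENNReal.ofReal_ne_top) ENNReal.ofReal_ne_top, ?_⟩
  intro n F hF hFω
  set gd : Set (ℝ × ℝ) := gdset (a - c) η K h with hgd
  have hgdm : MeasurableSet gd := gdset_meas _ _ _ _
  -- measurability
  set Φ : Ω → (Lab → ℝ) × (Lab → Pth) := fun ω => (sh u (S.T ω), sh u (S.B ω)) with hΦ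
  have hΦm : Measurable[S.mR] Φ := by
    have h1 : Measurable[S.mR] S.T := @measurable_pi_lambda _ _ _ S.mR _ _ S.measT
    have h2 : Measurable[S.mR] S.B := @measurable_pi_lambda _ _ _ S.mR _ _ S.measB
    exact ((measurable_sh u).comp h1).prodMk ((measurable_sh u).comp h2)
  have hTm : Measurable[S.mR] S.T := @measurable_pi_lambda _ _ _ S.mR _ _ S.measT
  set t : Ω → ℝ := fun ω => birth (S.T ω) u + n * h with ht
  have htm : Measurable[S.mR] t := ((measurable_birth u).comp hTm).add_const _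
  have ht0 : ∀ ω, 0 ≤ t ω := fun ω =>
    add_nonneg (birth_nonneg (S.life.pos ω) u) (mul_nonneg (Nat.cast_nonneg n) hh.le)
  have hFm : MeasurableSet F := S.mR_le _ hF
  set G : Quad → Ω → ℝ≥0∞ := fun z ω => F.indicator (fun _ => 1) ω * ind (Φ ω ∈ Ev h gd n z)
    with hG
  have hGm : ∀ z, Measurable[S.mR] (G z) := by
    intro z
    have h1 : Measurable[S.mR] (F.indicator (fun _ => (1 : ℝ≥0∞))) :=
      (@measurable_const _ _ _ S.mR (1 : ℝ≥0∞)).indicator hF
    have h2 : Measurable[S.mR] (fun ω => ind (Φ ω ∈ Ev h gd n z)) :=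
      (measurable_ind (Ev_meas h hgdm n z)).comp hΦm
    exact h1.mul h2
  have hGm' : ∀ z, Measurable (G z) := fun z => (hGm z).mono S.mR_le le_rfl
  have hDD : ∀ v : Lab, Measurable (fun ω => S.D ω v (t ω)) := fun v =>
    hDm v t (htm.mono S.mR_le le_rfl) ht0
  -- the pathwise bound
  have hpath : ∀ (z : Quad) (ω : Ω), G z ω *
      ENNReal.ofReal (min 1 (clk (S.R ω (qu z ++ u)) (t ω) -
        clk (S.R ω (qu z ++ u)) (birth (S.T ω) u + death (sh u (S.T ω)) z.1))) ^ (-(s / 2)) ≤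
      ENNReal.ofReal (m ^ (-(s / 2))) *
        (G z ω * ENNReal.ofReal (Real.exp (γ * death (sh u (S.T ω)) z.1))) := by
    intro z ω
    by_cases hω : ω ∈ F
    swap
    · have : G z ω = 0 := by
        simp only [hG]
        rw [indicator_of_notMem hω, zero_mul]
      rw [this, zero_mul, zero_mul, mul_zero]
    by_cases hE : Φ ω ∈ Ev h gd n z
    swap
    · have : G z ω = 0 := by
        simp only [hG]
        rw [ind_false hE, mul_zero]
      rw [this, zero_mul, zero_mul, mul_zero]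
    obtain ⟨hq1, hq2, hDlt⟩ := hE
    obtain ⟨hF1, hF2, -⟩ := hFω ω hω
    set τ := S.T ω with hτ
    set D : ℝ := death (sh u τ) z.1 with hD
    have hD' : D < ((n : ℝ) - 1) * h := not_le.1 hDlt
    have hpos : ∀ v, 0 < τ v := S.life.pos ω
    have hD0 : 0 ≤ D := (death_pos (sh_pos hpos u) _).le
    have hRad : RadOK lam τ (S.B ω) (S.R ω) := ⟨hpos, S.rad ω, S.old ω⟩
    have hup := hsub lam τ (S.B ω) (S.R ω) hc0 hRad u (qu z) a K h n hh hηa hK hq1.2 hF1
    set r := S.R ω (qu z ++ u) with hr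
    set b := birth τ u with hb
    have hb0 : 0 ≤ b := birth_nonneg hpos u
    obtain ⟨hck1, -, -, -, hck5⟩ := hCK r (S.rad ω _).cont (S.rad ω _).pos
    have hDn : D + h < n * h := by
      have : ((n : ℝ) - 1) * h = n * h - h := by ring
      linarith
    set z0 : ℝ := (a + 2 * η) * D + Z1 with hz0
    have hz : ∀ y ∈ Icc (b + D) (b + D + h), r y ≤ z0 := by
      intro y hy
      have h1 := (hup (y - b) (by linarith [hy.1]) (by linarith [hy.2])).2
      rw [show b + (y - b) = y by ring] at h1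
      have h2 : (a + 2 * η) * (y - b) ≤ (a + 2 * η) * (D + h) :=
        mul_le_mul_of_nonneg_left (by linarith [hy.2]) (by linarith)
      calc r y ≤ S.R ω u b + (a + 2 * η) * (y - b) + (K + |a - c| + η) * h := h1
        _ ≤ K1 + (a + 2 * η) * (D + h) + (K + |a - c| + η) * h := by linarith
        _ = z0 := by rw [hz0, hZ1]; ring
    have h5 := hck5 (b + D) (b + D + h) z0 (by linarith) (by linarith) hz
    have h6 : clk r (b + D + h) ≤ clk r (t ω) := hck1 _ _ (by linarith) (by
      show b + D + h ≤ b + n * h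
      linarith)
    rw [show b + D + h - (b + D) = h by ring] at h5
    have h7 : m * Real.exp (-2 * ((a + 2 * η) * D)) ≤ min 1 (clk r (t ω) - clk r (b + D)) := by
      have he0 : Real.exp (-2 * ((a + 2 * η) * D)) ≤ 1 := by
        refine Real.exp_le_one_iff.2 ?_
        have : 0 ≤ (a + 2 * η) * D := mul_nonneg (by linarith) hD0
        linarith
      refine le_min ?_ ?_
      · calc m * Real.exp (-2 * ((a + 2 * η) * D)) ≤ 1 * 1 :=
            mul_le_mul (min_le_left _ _) he0 (Real.exp_pos _).le zero_le_one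
          _ = 1 := mul_one _
      · calc m * Real.exp (-2 * ((a + 2 * η) * D))
            ≤ (4 * h * Real.exp (-2 * Z1)) * Real.exp (-2 * ((a + 2 * η) * D)) :=
            mul_le_mul_of_nonneg_right (min_le_right _ _) (Real.exp_pos _).le
          _ = 4 * h * Real.exp (-2 * z0) := by
            rw [mul_assoc, ← Real.exp_add, hz0]
            congr 2
            ring
          _ ≤ clk r (b + D + h) - clk r (b + D) := h5
          _ ≤ clk r (t ω) - clk r (b + D) := by linarith
    have h8 := pow_bound hs hm0 hD0 hsγ h7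
    calc G z ω * ENNReal.ofReal (min 1 (clk r (t ω) - clk r (b + D))) ^ (-(s / 2))
        ≤ G z ω * (ENNReal.ofReal (m ^ (-(s / 2))) * ENNReal.ofReal (Real.exp (γ * D))) :=
          mul_le_mul' le_rfl h8
      _ = ENNReal.ofReal (m ^ (-(s / 2))) * (G z ω * ENNReal.ofReal (Real.exp (γ * D))) := by
          ring
  -- summation
  set cn : ℝ≥0∞ := ENNReal.ofReal ((κ ^ n)⁻¹ ^ 2) with hcn
  have hL : ∫⁻ ω in F, cn * ∑' z : Quad,
        ind (qu z ∈ Gd2 h gd n (sh u (S.T ω)) (sh u (S.B ω)) ∧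
          qv z ∈ Gd2 h gd n (sh u (S.T ω)) (sh u (S.B ω)) ∧
          ¬(((n : ℝ) - 1) * h ≤ death (sh u (S.T ω)) z.1)) *
        ‖S.D ω (qu z ++ u) (birth (S.T ω) u + n * h) -
          S.D ω (qv z ++ u) (birth (S.T ω) u + n * h)‖ₑ ^ (-s) ∂P =
      cn * ∑' z : Quad, ∫⁻ ω, G z ω *
        ‖S.D ω (qu z ++ u) (t ω) - S.D ω (qv z ++ u) (t ω)‖ₑ ^ (-s) ∂P := by
    rw [← lintegral_indicator hFm, ← lintegral_tsum, ← lintegral_const_mul]
    · refine lintegral_congr fun ω => ?_
      by_cases hω : ω ∈ F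
      · rw [indicator_of_mem hω]
        congr 1
        refine tsum_congr fun z => ?_
        simp only [hG]
        rw [indicator_of_mem hω, one_mul]
        rfl
      · rw [indicator_of_notMem hω]
        simp only [hG]
        simp [indicator_of_notMem hω]
    · refine Measurable.tsum fun z => ?_
      exact (hGm' z).mul (((hDD _).sub (hDD _)).enorm.pow_const _)
    · intro z
      exact ((hGm' z).mul (((hDD _).sub (hDD _)).enorm.pow_const _)).aemeasurable
  rw [hL]
  have hterm : ∀ z : Quad, ∫⁻ ω, G z ω *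
        ‖S.D ω (qu z ++ u) (t ω) - S.D ω (qv z ++ u) (t ω)‖ₑ ^ (-s) ∂P ≤
      CP * (ENNReal.ofReal (m ^ (-(s / 2))) *
        ∫⁻ ω, G z ω * ENNReal.ofReal (Real.exp (γ * death (sh u (S.T ω)) z.1)) ∂P) := by
    intro z
    have h1 := hpair Ω P β lam S (z.1 ++ u, z.2.1, z.2.2.1, z.2.2.2) t (G z) htm ht0 (hGm z) (by
      intro ω hne
      have hE : Φ ω ∈ Ev h gd n z := by
        by_contra hcon
        apply hne
        simp only [hG]
        rw [ind_false hcon, mul_zero]
      have hDlt := not_le.1 hE.2.2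
      show death (S.T ω) (z.1 ++ u) ≤ birth (S.T ω) u + n * h
      rw [death_append]
      have : ((n : ℝ) - 1) * h = n * h - h := by ring
      have h3 : death (Φ ω).1 z.1 = death (sh u (S.T ω)) z.1 := rfl
      rw [h3] at hDlt
      linarith)
    rw [qu_app, qv_app] at h1
    refine h1.trans (mul_le_mul' le_rfl ?_)
    rw [← lintegral_const_mul' _ _ ENNReal.ofReal_ne_top]
    refine lintegral_mono fun ω => ?_
    have h2 := hpath z ω
    rw [← death_append] at h2
    exact h2
  have hHn : ∫⁻ ω, F.indicator (fun _ => 1) ω * Hn κ γ h gd n (sh u (S.T ω)) (sh u (S.B ω)) ∂P ≤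
      ENNReal.ofReal K0 * P F := by
    calc ∫⁻ ω, F.indicator (fun _ => 1) ω * Hn κ γ h gd n (sh u (S.T ω)) (sh u (S.B ω)) ∂P
        ≤ ∫⁻ ω, F.indicator (fun _ => ENNReal.ofReal K0) ω ∂P := by
          refine lintegral_mono fun ω => ?_
          by_cases hω : ω ∈ F
          · rw [indicator_of_mem hω, indicator_of_mem hω, one_mul]
            exact (hFω ω hω).2.2
          · rw [indicator_of_notMem hω, indicator_of_notMem hω, zero_mul]
      _ = ENNReal.ofReal K0 * P F := lintegral_indicator_const hFm _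
  have hEm : ∀ z : Quad, Measurable
      (fun ω => ENNReal.ofReal (Real.exp (γ * death (sh u (S.T ω)) z.1))) := by
    intro z
    have h1 : Measurable (fun ω => death (Φ ω).1 z.1) :=
      ((measurable_death z.1).comp (measurable_fst.comp hΦm)).mono S.mR_le le_rfl
    exact (Real.measurable_exp.comp (h1.const_mul γ)).ennreal_ofReal
  have hsum : cn * ∑' z : Quad,
      ∫⁻ ω, G z ω * ENNReal.ofReal (Real.exp (γ * death (sh u (S.T ω)) z.1)) ∂P =
      ∫⁻ ω, F.indicator (fun _ => 1) ω * Hn κ γ h gd n (sh u (S.T ω)) (sh u (S.B ω)) ∂P := by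
    rw [← lintegral_tsum, ← lintegral_const_mul]
    · refine lintegral_congr fun ω => ?_
      unfold Hn
      simp only [hG]
      by_cases hω : ω ∈ F
      · rw [indicator_of_mem hω]
        simp only [one_mul]
        rfl
      · rw [indicator_of_notMem hω]
        simp
    · exact Measurable.tsum fun z => (hGm' z).mul (hEm z)
    · intro z
      exact ((hGm' z).mul (hEm z)).aemeasurable
  calc cn * ∑' z : Quad, ∫⁻ ω, G z ω *
        ‖S.D ω (qu z ++ u) (t ω) - S.D ω (qv z ++ u) (t ω)‖ₑ ^ (-s) ∂P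
      ≤ cn * ∑' z : Quad, CP * (ENNReal.ofReal (m ^ (-(s / 2))) *
        ∫⁻ ω, G z ω * ENNReal.ofReal (Real.exp (γ * death (sh u (S.T ω)) z.1)) ∂P) :=
        mul_le_mul' le_rfl (ENNReal.tsum_le_tsum hterm)
    _ = CP * ENNReal.ofReal (m ^ (-(s / 2))) * (cn * ∑' z : Quad,
        ∫⁻ ω, G z ω * ENNReal.ofReal (Real.exp (γ * death (sh u (S.T ω)) z.1)) ∂P) := by
        rw [ENNReal.tsum_mul_left, ENNReal.tsum_mul_left]
        ring
    _ ≤ CP * ENNReal.ofReal (m ^ (-(s / 2))) * (ENNReal.ofReal K0 * P F) := by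
        rw [hsum]
        exact mul_le_mul' le_rfl hHn
    _ = CP * ENNReal.ofReal (m ^ (-(s / 2))) * ENNReal.ofReal K0 * P F := by ring

end Pool.Agent.helper26.HB
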