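import Pool.Agent.helper23.HB.Stmts

/-!
# HB, module MSYS: measurability facts for systems
-/

open MeasureTheory ProbabilityTheory Set Filter Topology
open scoped ENNReal NNReal

namespace Pool.Agent.helper26.HB

open Pool.Agent.helper23.HB

namespace MSYS

section Gen

variable {α : Type*} [MeasurableSpace α]

/-- evaluation at a variable time -/
theorem meas_eval {f : ℝ → α → ℝ}
    (hc : ∀ a, Continuous (fun s => f s a)) (hm : ∀ s, Measurable (f s)) {t : α → ℝ}
    (ht : Measurable t) : Measurable (fun a => f (t a) a) := by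
  have h := measurable_uncurry_of_continuous_of_measurable (u := f) hc hm
  exact h.comp (ht.prodMk measurable_id)

theorem meas_int {f : ℝ → α → ℝ}
    (hc : ∀ a, Continuous (fun s => f s a)) (hm : ∀ s, Measurable (f s)) (s : ℝ) :
    Measurable (fun a => ∫ y in (0 : ℝ)..s, f y a) := by
  have h : Measurable (Function.uncurry fun (a : α) (y : ℝ) => f y a) :=
    (measurable_uncurry_of_continuous_of_measurable (u := f) hc hm).comp measurable_swap
  simp only [intervalIntegral]
  refine Measurable.sub ?_ ?_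
  · exact (h.stronglyMeasurable.integral_prod_right (ν := volume.restrict (Ioc 0 s))).measurable
  · exact (h.stronglyMeasurable.integral_prod_right (ν := volume.restrict (Ioc s 0))).measurable

/-- evaluation at a variable nonnegative time, for functions continuous on `[0, ∞)` -/
theorem meas_eval' {r : α → ℝ → ℝ} (hr : ∀ a, ContinuousOn (r a) (Ici 0))
    (hm : ∀ s, 0 ≤ s → Measurable (fun a => r a s)) {t : α → ℝ}
    (ht : Measurable t) (ht0 : ∀ a, 0 ≤ t a) : Measurable (fun a => r a (t a)) := by
  have h := meas_eval (f := fun s a => r a (max s 0))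
    (fun a => (hr a).comp_continuous (continuous_id.max continuous_const)
      fun s => mem_Ici.2 (le_max_right _ _)) (fun s => hm _ (le_max_right _ _)) ht
  have he : (fun a => r a (max (t a) 0)) = fun a => r a (t a) := by
    funext a
    rw [max_eq_left (ht0 a)]
  rw [← he]
  exact h

theorem inv_sinh_cont {r : ℝ → ℝ} (hr : ContinuousOn r (Ici 0)) (hp : ∀ t, 0 ≤ t → 0 < r t) :
    ContinuousOn (fun t => 1 / (Real.sinh (r t)) ^ 2) (Ici 0) := by
  have h1 : ∀ t ∈ Ici (0 : ℝ), Real.sinh (r t) ^ 2 ≠ 0 := fun t ht =>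
    (pow_pos (Real.sinh_pos_iff.2 (hp t ht)) 2).ne'
  exact ContinuousOn.div continuousOn_const ((Real.continuous_sinh.comp_continuousOn hr).pow 2) h1

theorem clk_eq (r : ℝ → ℝ) {t : ℝ} (ht : 0 ≤ t) :
    clk r t = ∫ y in (0 : ℝ)..t, 1 / (Real.sinh (r (max y 0))) ^ 2 := by
  unfold clk
  refine intervalIntegral.integral_congr fun y hy => ?_
  rw [uIcc_of_le ht] at hy
  show 1 / (Real.sinh (r y)) ^ 2 = 1 / (Real.sinh (r (max y 0))) ^ 2
  rw [max_eq_left hy.1]

theorem clk_contOn {r : ℝ → ℝ} (hr : ContinuousOn r (Ici 0)) (hp : ∀ t, 0 ≤ t → 0 < r t) :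
    ContinuousOn (clk r) (Ici 0) := by
  have hc : Continuous (fun s => 1 / (Real.sinh (r (max s 0))) ^ 2) :=
    (inv_sinh_cont hr hp).comp_continuous (continuous_id.max continuous_const)
      fun s => mem_Ici.2 (le_max_right _ _)
  have h2 : Continuous fun t => ∫ y in (0 : ℝ)..t, 1 / (Real.sinh (r (max y 0))) ^ 2 :=
    intervalIntegral.continuous_primitive (fun _ _ => hc.intervalIntegrable _ _) 0
  exact h2.continuousOn.congr fun t ht => clk_eq r ht

/-- the clock at a variable time, for a family of continuous positive functions -/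
theorem meas_clk {r : α → ℝ → ℝ} (hr : ∀ a, ContinuousOn (r a) (Ici 0))
    (hp : ∀ a t, 0 ≤ t → 0 < r a t) (hm : ∀ s, 0 ≤ s → Measurable (fun a => r a s)) {t : α → ℝ}
    (ht : Measurable t) (ht0 : ∀ a, 0 ≤ t a) : Measurable (fun a => clk (r a) (t a)) := by
  refine meas_eval' (fun a => clk_contOn (hr a) (hp a)) (fun s hs => ?_) ht ht0
  have hrc : ∀ a, Continuous (fun s => 1 / (Real.sinh (r a (max s 0))) ^ 2) := fun a =>
    (inv_sinh_cont (hr a) (hp a)).comp_continuous (continuous_id.max continuous_const)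
      fun s => mem_Ici.2 (le_max_right _ _)
  have hrm : ∀ s, Measurable (fun a => 1 / (Real.sinh (r a (max s 0))) ^ 2) := fun s =>
    measurable_const.div ((Real.measurable_sinh.comp (hm _ (le_max_right _ _))).pow_const 2)
  have he : (fun a => clk (r a) s) =
      fun a => ∫ y in (0 : ℝ)..s, 1 / (Real.sinh (r a (max y 0))) ^ 2 := by
    funext a
    exact clk_eq (r a) hs
  rw [he]
  exact meas_int hrc hrm s

/-- the angular lifetimes -/
theorem meas_sig {τ : α → Lab → ℝ} {R : α → Lab → ℝ → ℝ} (hτ : ∀ u, Measurable (fun a => τ a u))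
    (hτ0 : ∀ a u, 0 < τ a u) (hr : ∀ a u, ContinuousOn (R a u) (Ici 0))
    (hp : ∀ a u t, 0 ≤ t → 0 < R a u t) (hm : ∀ u s, 0 ≤ s → Measurable (fun a => R a u s)) :
    Measurable (fun a => sig (τ a) (R a)) := by
  have hτ' : Measurable τ := measurable_pi_lambda _ hτ
  refine measurable_pi_lambda _ fun u => ?_
  refine Measurable.sub ?_ ?_
  · exact meas_clk (fun a => hr a u) (fun a => hp a u) (hm u) ((measurable_death u).comp hτ')
      fun a => (death_pos (hτ0 a) u).le
  · exact meas_clk (fun a => hr a u) (fun a => hp a u) (hm u) ((measurable_birth u).comp hτ')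
      fun a => birth_nonneg (hτ0 a) u

end Gen

section Sys

variable {Ω : Type} [mΩ : MeasurableSpace Ω] {P : Measure Ω} {β lam : ℝ} (S : Sys β lam P)

theorem R_cont (ω : Ω) (u : Lab) : ContinuousOn (S.R ω u) (Ici 0) := (S.rad ω u).cont

theorem R_pos (ω : Ω) (u : Lab) (t : ℝ) (ht : 0 ≤ t) : 0 < S.R ω u t := (S.rad ω u).pos t ht

theorem R_meas (u : Lab) (t : ℝ) (ht : 0 ≤ t) : Measurable (fun ω => S.R ω u t) :=
  (S.measR u t ht).mono S.mR_le le_rfl

theorem sig_meas : Measurable (fun ω => sig (S.T ω) (S.R ω)) :=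
  meas_sig S.life.meas S.life.pos (R_cont S) (fun ω u => R_pos S ω u) (R_meas S)

theorem W_meas : Measurable S.W := measurable_pi_lambda _ S.noiseW.meas

theorem Th_meas (u : Lab) {t : Ω → ℝ} (ht : Measurable t) (ht0 : ∀ ω, 0 ≤ t ω) :
    Measurable (fun ω => S.Th ω u (t ω)) := by
  have h1 : Measurable (fun ω => clk (S.R ω u) (t ω)) :=
    meas_clk (fun ω => R_cont S ω u) (fun ω => R_pos S ω u) (R_meas S u) ht ht0
  have h2 : Measurable (fun ω => ((sig (S.T ω) (S.R ω), S.W ω), clk (S.R ω u) (t ω))) :=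
    ((sig_meas S).prodMk (W_meas S)).prodMk h1
  have h3 : Measurable S.θ0 := S.measθ.mono S.mR_le le_rfl
  exact h3.add ((measurable_line u).comp h2)

theorem Th_cont (ω : Ω) (u : Lab) : ContinuousOn (S.Th ω u) (Ici 0) := by
  refine ContinuousOn.add continuousOn_const ?_
  exact (line_continuous _ _ _).comp_continuousOn (clk_contOn (R_cont S ω u) (R_pos S ω u))

theorem osc_meas (u : Lab) (m : ℕ) : Measurable (fun ω => S.osc ω u m) := by
  have hm0 : (0 : ℝ) ≤ m := Nat.cast_nonneg m
  have h : Measurable (fun ω => ⨆ r : Icc (0 : ℝ) 1,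
      |S.Th ω u (m + max (r : ℝ) 0) - S.Th ω u m|) := by
    refine measurable_iSup_Icc 0 1
      (g := fun ω r => |S.Th ω u (m + max r 0) - S.Th ω u m|) (fun ω => ?_) fun r => ?_
    · refine Continuous.abs (Continuous.sub ?_ continuous_const)
      exact (Th_cont S ω u).comp_continuous
        (continuous_const.add (continuous_id.max continuous_const))
        fun r => mem_Ici.2 (add_nonneg hm0 (le_max_right _ _))
    · have h1 : Measurable (fun ω => S.Th ω u ((m : ℝ) + max r 0)) :=
        Th_meas S u measurable_const fun ω => add_nonneg hm0 (le_max_right _ _)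
      have h2 : Measurable (fun ω => S.Th ω u (m : ℝ)) := Th_meas S u measurable_const fun _ => hm0
      exact (h1.sub h2).abs
  have he : (fun ω => S.osc ω u m) = fun ω => min 2 (⨆ r : Icc (0 : ℝ) 1,
      |S.Th ω u (m + max (r : ℝ) 0) - S.Th ω u m|) := by
    funext ω
    unfold Sys.osc
    congr 1
    refine iSup_congr fun r => ?_
    rw [max_eq_left r.2.1]
  rw [he]
  exact measurable_const.min h

end Sys

end MSYS

open MSYS in
/-- measurability facts for systems -/
theorem mMSYS : St_MSYS := by
  intro Ω _ P _ β lam S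
  refine ⟨?_, ?_, ?_, ?_, ?_, ?_⟩
  · intro u t ht ht0
    exact @meas_eval' Ω S.mR (fun ω => S.R ω u) (fun ω => R_cont S ω u) (S.measR u) t ht ht0
  · intro u t ht ht0
    exact @meas_clk Ω S.mR (fun ω => S.R ω u) (fun ω => R_cont S ω u) (fun ω => R_pos S ω u)
      (S.measR u) t ht ht0
  · exact @meas_sig Ω S.mR S.T S.R S.measT S.life.pos (R_cont S) (fun ω u => R_pos S ω u) S.measR
  · intro u t ht ht0
    exact Th_meas S u ht ht0
  · intro u t ht ht0
    have h := Th_meas S u ht ht0
    have hc : Continuous cis := by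
      unfold cis
      fun_prop
    exact hc.measurable.comp h
  · intro u m
    exact osc_meas S u m

end Pool.Agent.helper26.HB
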